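import Pool.Agent.W973.IP.Defs

/-!
# Project IP: degree bounds for the numerators of Cramer's rule (part BDG)
-/

set_option autoImplicit false

namespace Pool.Agent.W412.IP

open Pool.Agent.W973.IP MvPolynomial

variable {ι : Type}

theorem mono {d d' : ℕ} {f : (ι → ℝ) → ℝ} (h : BD ℚ d f) (hd : d ≤ d') : BD ℚ d' f := by
  obtain ⟨p, hp, hf⟩ := h
  exact ⟨p, fun i => (hp i).trans hd, hf⟩

theorem cst (q : ℚ) : BD (ι := ι) ℚ 0 (fun _ => (q : ℝ)) :=
  ⟨C q, fun i => by rw [degreeOf_C], fun y => by simp⟩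

theorem cstn (q : ℕ) : BD (ι := ι) ℚ 0 (fun _ => (q : ℝ)) := by
  have h := cst (ι := ι) (q : ℚ)
  simpa using h

theorem add {d d' : ℕ} {f g : (ι → ℝ) → ℝ} (hf : BD ℚ d f) (hg : BD ℚ d' g) :
    BD ℚ (max d d') (fun y => f y + g y) := by
  obtain ⟨p, hp, hp'⟩ := hf
  obtain ⟨q, hq, hq'⟩ := hg
  refine ⟨p + q, fun i => (degreeOf_add_le i p q).trans (max_le_max (hp i) (hq i)), fun y => ?_⟩
  rw [map_add, ← hp', ← hq']

theorem mul {d d' : ℕ} {f g : (ι → ℝ) → ℝ} (hf : BD ℚ d f) (hg : BD ℚ d' g) :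
    BD ℚ (d + d') (fun y => f y * g y) := by
  obtain ⟨p, hp, hp'⟩ := hf
  obtain ⟨q, hq, hq'⟩ := hg
  refine ⟨p * q, fun i => (degreeOf_mul_le i p q).trans (Nat.add_le_add (hp i) (hq i)),
    fun y => ?_⟩
  rw [map_mul, ← hp', ← hq']

theorem neg {d : ℕ} {f : (ι → ℝ) → ℝ} (hf : BD ℚ d f) : BD ℚ d (fun y => - f y) := by
  obtain ⟨p, hp, hp'⟩ := hf
  refine ⟨-p, fun i => by rw [degreeOf_neg]; exact hp i, fun y => ?_⟩
  rw [map_neg, ← hp']

theorem sub {d d' : ℕ} {f g : (ι → ℝ) → ℝ} (hf : BD ℚ d f) (hg : BD ℚ d' g) :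
    BD ℚ (max d d') (fun y => f y - g y) := by
  have h := add hf (neg hg)
  simpa [sub_eq_add_neg] using h

theorem zero (d : ℕ) : BD (ι := ι) ℚ d (fun _ => 0) := by
  have h := cstn (ι := ι) 0
  simp only [Nat.cast_zero] at h
  exact mono h (Nat.zero_le _)

theorem one (d : ℕ) : BD (ι := ι) ℚ d (fun _ => 1) := by
  have h := cstn (ι := ι) 1
  simp only [Nat.cast_one] at h
  exact mono h (Nat.zero_le _)

theorem pow {d : ℕ} {f : (ι → ℝ) → ℝ} (hf : BD ℚ d f) (m : ℕ) :
    BD ℚ (m * d) (fun y => f y ^ m) := by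
  induction m with
  | zero => simpa using one (ι := ι) _
  | succ m ih =>
    have h := mul ih hf
    have e : m * d + d = (m + 1) * d := by ring
    rw [e] at h
    simpa [pow_succ] using h

theorem sum {α : Type*} (s : Finset α) {d : ℕ} {f : α → (ι → ℝ) → ℝ}
    (hf : ∀ i ∈ s, BD ℚ d (f i)) : BD ℚ d (fun y => ∑ i ∈ s, f i y) := by
  classical
  induction s using Finset.induction_on with
  | empty => simpa using zero (ι := ι) d
  | insert a s ha ih =>
    have h := add (hf a (Finset.mem_insert_self _ _))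
      (ih fun i hi => hf i (Finset.mem_insert_of_mem hi))
    rw [max_self] at h
    simpa [Finset.sum_insert ha] using h

theorem prod {α : Type*} (s : Finset α) {d : α → ℕ} {f : α → (ι → ℝ) → ℝ}
    (hf : ∀ i ∈ s, BD ℚ (d i) (f i)) : BD ℚ (∑ i ∈ s, d i) (fun y => ∏ i ∈ s, f i y) := by
  classical
  induction s using Finset.induction_on with
  | empty => simpa using one (ι := ι) 0
  | insert a s ha ih =>
    have h := mul (hf a (Finset.mem_insert_self _ _))
      (ih fun i hi => hf i (Finset.mem_insert_of_mem hi))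
    rw [Finset.sum_insert ha]
    simpa [Finset.prod_insert ha] using h

theorem ite {d : ℕ} {f g : (ι → ℝ) → ℝ} (c : Prop) [Decidable c] (hf : BD ℚ d f)
    (hg : BD ℚ d g) : BD ℚ d (fun y => if c then f y else g y) := by
  by_cases h : c
  · simpa [h] using hf
  · simpa [h] using hg

theorem tdp {σ : Type} [Fintype σ] [DecidableEq σ] (i : σ) (P : MvPolynomial σ ℚ) :
    (pderiv i P).totalDegree ≤ P.totalDegree := by
  conv_lhs => rw [P.as_sum, map_sum]
  refine (totalDegree_finsetSum _ _).trans (Finset.sup_le fun m hm => ?_)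
  rw [pderiv_monomial]
  refine (totalDegree_monomial_le _ _).trans ?_
  refine le_trans ?_ (le_totalDegree hm)
  rw [Finsupp.sum_fintype _ _ (fun _ => rfl), Finsupp.sum_fintype _ _ (fun _ => rfl)]
  refine Finset.sum_le_sum fun j _ => ?_
  rw [Finsupp.tsub_apply]
  exact Nat.sub_le _ _

theorem hvB {n : ℕ} (P : MvPolynomial (Fin n ⊕ Fin n) ℚ) {D : ℕ} (hP : P.totalDegree ≤ D)
    {u : Fin n → (ι → ℝ) → ℝ} {w : Fin n → (ι → ℝ) → ℝ} (hu : ∀ l, BD ℚ 1 (u l))
    (hw : ∀ j, BD ℚ 1 (w j)) :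
    BD ℚ D (fun y => hv P (fun l => u l y) (fun j => w j y)) := by
  have h : (fun y : ι → ℝ => hv P (fun l => u l y) (fun j => w j y)) =
      fun y => ∑ m ∈ P.support, ((P.coeff m : ℚ) : ℝ) *
        ∏ i, (Sum.elim (fun l => u l y) (fun j => w j y) i) ^ m i := by
    funext y
    unfold hv
    rw [aeval_def, eval₂_eq']
    rfl
  rw [h]
  refine sum _ fun m hm => ?_
  have h1 : BD ℚ (∑ i, m i * 1) (fun y => ∏ i,
      (Sum.elim (fun l => u l y) (fun j => w j y) i) ^ m i) := by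
    refine prod (f := fun i y => (Sum.elim (fun l => u l y) (fun j => w j y) i) ^ m i)
      Finset.univ fun i _ => ?_
    refine pow (f := fun y => (Sum.elim (fun l => u l y) (fun j => w j y) i)) ?_ (m i)
    rcases i with l | j
    · exact hu l
    · exact hw j
  refine mono (mul (cst (P.coeff m)) h1) ?_
  have h2 := (le_totalDegree hm).trans hP
  rw [Finsupp.sum_fintype _ _ (fun _ => rfl)] at h2
  simpa using h2

theorem XB {n : ℕ} {w : Fin n → (ι → ℝ) → ℝ} (hw : ∀ j, BD ℚ 1 (w j)) :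
    BD ℚ 2 (fun y => X (fun j => w j y)) := by
  unfold Pool.Agent.W973.IP.X
  exact mono (add (one 0) (sum (d := 2) Finset.univ fun j _ => mono (pow (hw j) 2) (by norm_num)))
    (by norm_num)

theorem LB {n : ℕ} (s : ℕ) {w : Fin n → (ι → ℝ) → ℝ} (hw : ∀ j, BD ℚ 1 (w j)) :
    BD ℚ 1 (fun y => Lf s (fun j => w j y)) := by
  unfold Lf
  refine sum (d := 1) Finset.univ fun j _ => ?_
  have h := mul (cstn (ι := ι) (s ^ (j : ℕ))) (hw j)
  push_cast at h
  exact mono h (by norm_num)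

theorem owB {n : ℕ} {w : Fin n → (ι → ℝ) → ℝ} (hw : ∀ j, BD ℚ 1 (w j)) (o : Option (Fin n)) :
    BD ℚ 1 (fun y => ow (fun j => w j y) o) := by
  rcases o with _ | j
  · exact one 1
  · exact hw j

theorem dgle {n r : ℕ} (hr : r ≤ n + 1) (p : Fin r × Fin 2) : dg p ≤ 2 * n + 1 := by
  unfold dg
  have := p.1.2
  have := p.2.2
  omega

theorem matB {n r : ℕ} (hr : r ≤ n + 1) (s : ℕ) {e : (ι → ℝ) → ℝ} {u : Fin n → (ι → ℝ) → ℝ}
    {w : Fin r → Fin n → (ι → ℝ) → ℝ} (he : BD ℚ 1 e) (hu : ∀ l, BD ℚ 1 (u l))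
    (hw : ∀ i j, BD ℚ 1 (w i j)) (I J : JJ n r) :
    BD ℚ (2 * n + 3) (fun y => mat s (e y) (fun l => u l y) (fun i j => w i j y) I J) := by
  rcases I with l | ⟨_ | j, i, ε⟩
  · rcases J with l' | q
    · exact ite _ (mono he (by omega)) (zero _)
    · exact zero _
  · rcases J with l' | ⟨o', p⟩
    · show BD ℚ _ (fun y => if ε = 0 then (if (none : Option (Fin n)) = none then e y * u l' y else 0)
        else 0)
      exact ite _ (ite _ (mono (mul he (hu l')) (by omega)) (zero _)) (zero _)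
    · show BD ℚ _ (fun y => if ε = 0 then
          e y * (Lf s (fun j => w i j y) ^ dg p * ow (fun j => w i j y) o')
        else if o' = none then (dg p : ℝ) * Lf s (fun j => w i j y) ^ (dg p - 1) else 0)
      have h1 := dgle hr p
      refine ite _ (mono (mul he (mul (pow (LB s (hw i)) (dg p)) (owB (hw i) o'))) (by omega))
        (ite _ (mono (mul (cstn (dg p)) (pow (LB s (hw i)) (dg p - 1))) (by omega)) (zero _))
  · rcases J with l' | ⟨o', p⟩
    · show BD ℚ _ (fun y => if ε = 0 then (if some j = none then e y * u l' y else 0)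
        else 0)
      exact ite _ (ite _ (mono (mul he (hu l')) (by omega)) (zero _)) (zero _)
    · show BD ℚ _ (fun y => if ε = 0 then
          e y * ((dg p : ℝ) * Lf s (fun j => w i j y) ^ (dg p - 1) * ((s : ℝ) ^ (j : ℕ)) *
            ow (fun j => w i j y) o' +
            Lf s (fun j => w i j y) ^ dg p * (if o' = some j then 1 else 0))
        else if o' = some j then (dg p : ℝ) * Lf s (fun j => w i j y) ^ (dg p - 1) else 0)
      have h1 := dgle hr p
      have hs : BD (ι := ι) ℚ 0 (fun _ => (s : ℝ) ^ (j : ℕ)) := by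
        have h := cstn (ι := ι) (s ^ (j : ℕ))
        push_cast at h
        exact h
      refine ite _ (mono (mul he (add
          (mul (mul (mul (cstn (dg p)) (pow (LB s (hw i)) (dg p - 1))) hs) (owB (hw i) o'))
          (mul (pow (LB s (hw i)) (dg p)) (ite (o' = some j) (one 0) (zero 0))))) (by omega))
        (ite _ (mono (mul (cstn (dg p)) (pow (LB s (hw i)) (dg p - 1))) (by omega)) (zero _))

theorem detB {κ : Type} [Fintype κ] [DecidableEq κ] {d : ℕ} (M : (ι → ℝ) → Matrix κ κ ℝ)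
    (hM : ∀ I J, BD ℚ d (fun y => M y I J)) :
    BD ℚ (Fintype.card κ * d) (fun y => (M y).det) := by
  have h : (fun y => (M y).det) = fun y => ∑ σ : Equiv.Perm κ,
      ((Equiv.Perm.sign σ : ℤ) : ℝ) * ∏ i, M y (σ i) i := by
    funext y
    rw [Matrix.det_apply']
  rw [h]
  refine sum _ fun σ _ => ?_
  have h1 : BD ℚ (∑ _i : κ, d) (fun y => ∏ i, M y (σ i) i) :=
    prod (f := fun i y => M y (σ i) i) Finset.univ fun i _ => hM (σ i) i
  have h2 : BD (ι := ι) ℚ 0 (fun _ => ((Equiv.Perm.sign σ : ℤ) : ℝ)) := by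
    have h := cst (ι := ι) ((Equiv.Perm.sign σ : ℤ) : ℚ)
    push_cast at h
    exact h
  refine mono (mul h2 h1) ?_
  simp

theorem adjB {κ : Type} [Fintype κ] [DecidableEq κ] {d : ℕ} (M : (ι → ℝ) → Matrix κ κ ℝ)
    (hM : ∀ I J, BD ℚ d (fun y => M y I J)) (I J : κ) :
    BD ℚ (Fintype.card κ * d) (fun y => (M y).adjugate I J) := by
  have h : (fun y => (M y).adjugate I J) =
      fun y => ((M y).updateRow J (Pi.single I 1)).det := by
    funext y
    rw [Matrix.adjugate_apply]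
  rw [h]
  refine detB (fun y => (M y).updateRow J (Pi.single I 1)) fun I' J' => ?_
  by_cases hI : I' = J
  · subst hI
    simp only [Matrix.updateRow_self]
    by_cases hJ : J' = I
    · subst hJ
      simpa using one (ι := ι) d
    · simpa [Pi.single_apply, hJ] using zero (ι := ι) d
  · simp only [Matrix.updateRow_ne hI]
    exact hM I' J'

theorem rhsB {n r : ℕ} (P : MvPolynomial (Fin n ⊕ Fin n) ℚ) (hP : P.totalDegree ≤ 4) (s : ℕ)
    {c e v : (ι → ℝ) → ℝ} {u : Fin n → (ι → ℝ) → ℝ}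
    {w : Fin r → Fin n → (ι → ℝ) → ℝ} {lam : Fin r → (ι → ℝ) → ℝ} {a : Tx n → (ι → ℝ) → ℝ}
    {z : Option (Fin n) → Fin r → (ι → ℝ) → ℝ} (hc : BD ℚ 1 c)
    (he : BD ℚ 1 e) (hv' : BD ℚ 1 v) (hu : ∀ l, BD ℚ 1 (u l))
    (hw : ∀ i j, BD ℚ 1 (w i j)) (hl : ∀ i, BD ℚ 1 (lam i)) (ha : ∀ t, BD ℚ 1 (a t))
    (hz : ∀ o i, BD ℚ 1 (z o i)) (J : JJ n r) :
    BD ℚ (2 * NN n + 2 * n + 8) (fun y => rhs P s (c y) (e y) (v y) (fun l => u l y)
      (fun i j => w i j y) (fun i => lam i y) (fun t => a t y) (fun o i => z o i y) J) := by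
  have hN : 1 ≤ NN n := Nat.one_le_two_pow
  rcases J with l | ⟨_ | j, i, ε⟩
  · show BD ℚ _ (fun y => -(∑ i, lam i y * (hv (pderiv (Sum.inl l) P) (fun l => u l y)
        (fun j => w i j y) * X (fun j => w i j y) ^ NN n) - 6 * c y * u l y ^ 5))
    refine neg (mono (sub (d := 2 * NN n + 5) (d' := 6) (sum _ fun i _ => ?_) ?_) (by omega))
    · exact mono (mul (hl i) (mul (hvB _ ((tdp _ P).trans hP) hu (hw i)) (pow (XB (hw i)) _)))
        (by omega)
    · have h6 := cstn (ι := ι) 6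
      push_cast at h6
      exact mono (mul (mul h6 hc) (pow (hu l) 5)) (by omega)
  · show BD ℚ _ (fun y => if ε = 0 then
      v y - (hv P (fun l => u l y) (fun j => w i j y) * X (fun j => w i j y) ^ NN n -
        c y * ∑ l, u l y ^ 6 + e y * (X (fun j => w i j y) ^ (n + 2) +
        ∑ t : Tx n, if uns s r t then a t y * (Lf (t.2.1 : ℕ) (fun j => w i j y) ^ (t.2.2 : ℕ) *
          ow (fun j => w i j y) t.1)
          else 0))
      else z none i y)
    refine ite _ (mono (sub hv' (add (sub (mul (hvB P hP hu (hw i)) (pow (XB (hw i)) (NN n)))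
      (mul hc (sum (d := 6) Finset.univ fun l _ => mono (pow (hu l) 6) (by norm_num))))
      (mul he (add (pow (XB (hw i)) (n + 2)) (sum (d := 2 * n + 3) Finset.univ fun t _ => ?_)))))
      (by omega)) (mono (hz none i) (by omega))
    have ht := t.2.2.2
    exact ite _ (mono (mul (ha t) (mul (pow (LB _ (hw i)) _) (owB (hw i) _))) (by omega)) (zero _)
  · show BD ℚ _ (fun y => if ε = 0 then
      -(hv (pderiv (Sum.inr j) P) (fun l => u l y) (fun j => w i j y) *
          X (fun j => w i j y) ^ NN n +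
        hv P (fun l => u l y) (fun j => w i j y) *
          ((NN n : ℝ) * X (fun j => w i j y) ^ (NN n - 1) * (2 * w i j y)) +
        e y * (((n : ℝ) + 2) * X (fun j => w i j y) ^ (n + 1) * (2 * w i j y) +
          ∑ t : Tx n, if uns s r t then a t y *
            (((t.2.2 : ℕ) : ℝ) * Lf (t.2.1 : ℕ) (fun j => w i j y) ^ ((t.2.2 : ℕ) - 1) *
              (((t.2.1 : ℕ) : ℝ) ^ (j : ℕ)) * ow (fun j => w i j y) t.1 +
              Lf (t.2.1 : ℕ) (fun j => w i j y) ^ (t.2.2 : ℕ) *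
                (if t.1 = some j then 1 else 0)) else 0))
      else z (some j) i y)
    have h2 := cstn (ι := ι) 2
    push_cast at h2
    have hn2 := cstn (ι := ι) (n + 2)
    push_cast at hn2
    refine ite _ (neg (mono (add (add
      (mul (hvB _ ((tdp _ P).trans hP) hu (hw i)) (pow (XB (hw i)) (NN n)))
      (mul (hvB P hP hu (hw i)) (mul (mul (cstn (NN n)) (pow (XB (hw i)) (NN n - 1)))
        (mul h2 (hw i j)))))
      (mul he (add (mul (mul hn2 (pow (XB (hw i)) (n + 1))) (mul h2 (hw i j)))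
        (sum (d := 2 * n + 3) Finset.univ fun t _ => ?_))))
      (by omega))) (mono (hz (some j) i) (by omega))
    have ht := t.2.2.2
    have hs : BD (ι := ι) ℚ 0 (fun _ => ((t.2.1 : ℕ) : ℝ) ^ (j : ℕ)) := by
      have h := cstn (ι := ι) ((t.2.1 : ℕ) ^ (j : ℕ))
      push_cast at h
      exact h
    exact ite _ (mono (mul (ha t) (add
      (mul (mul (mul (cstn _) (pow (LB _ (hw i)) _)) hs) (owB (hw i) _))
      (mul (pow (LB _ (hw i)) _) (ite _ (one 0) (zero 0))))) (by omega)) (zero _)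

theorem bdg : S_BDG := by
  intro ι n r P hP hr s c e v u w lam a z hc he hv' hu hw hl ha hz
  have hcard : Fintype.card (JJ n r) * (2 * n + 3) ≤ 9 * (n + 1) ^ 3 := by
    have h1 : Fintype.card (JJ n r) = n + (n + 1) * (r * 2) := by
      simp [JJ]
    rw [h1]
    have h2 : n + (n + 1) * (r * 2) ≤ 3 * (n + 1) ^ 2 := by nlinarith
    have h3 : 2 * n + 3 ≤ 3 * (n + 1) := by omega
    calc (n + (n + 1) * (r * 2)) * (2 * n + 3) ≤ (3 * (n + 1) ^ 2) * (3 * (n + 1)) :=
          Nat.mul_le_mul h2 h3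
      _ = 9 * (n + 1) ^ 3 := by ring
  have hmat := fun I J => matB (ι := ι) hr s he hu hw I J
  have hdet : BD ℚ (9 * (n + 1) ^ 3)
      (fun y => (mat s (e y) (fun l => u l y) (fun i j => w i j y)).det) :=
    mono (detB (fun y => mat s (e y) (fun l => u l y) (fun i j => w i j y)) hmat) hcard
  have h1 : 1 ≤ (n + 1) ^ 3 := Nat.one_le_pow _ _ (by omega)
  have h2 : n + 1 ≤ (n + 1) ^ 3 := Nat.le_self_pow (by norm_num) _
  refine ⟨mono hdet ?_, fun J => ?_, fun f hf => mono (mul hf hdet) ?_⟩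
  · unfold dd; omega
  · show BD ℚ _ (fun y => ∑ K, (mat s (e y) (fun l => u l y) (fun i j => w i j y)).adjugate J K *
      rhs P s (c y) (e y) (v y) (fun l => u l y) (fun i j => w i j y) (fun i => lam i y)
        (fun t => a t y) (fun o i => z o i y) K)
    refine sum _ fun K _ => ?_
    refine mono (mul (mono (adjB (fun y => mat s (e y) (fun l => u l y) (fun i j => w i j y))
      hmat J K) hcard) (rhsB P hP s hc he hv' hu hw hl ha hz K)) ?_
    unfold dd
    omega
  · unfold dd; omega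

end Pool.Agent.W412.IP
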